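import Mathlib

/-!
# Sections of power series in `z = 2x/(1-x)` and far-field multiplicativity

If `E(x) = (1-x) (1+z)^N E(x^2)` with `z = 2x/(1-x)` then
`E(2^(l+L) + n) ≡ E(n) E(2^L)` modulo `2^L` for all `n < 2^l`.
-/

namespace Pool.Agent.V11286.CBP

open PowerSeries

noncomputable section

/-- the substitution `x ↦ x^2` -/
def D : ℤ⟦X⟧ →ₐ[ℤ] ℤ⟦X⟧ := PowerSeries.expand 2 two_ne_zero

lemma coeff_D_even (f : ℤ⟦X⟧) (n : ℕ) : coeff (2 * n) (D f) = coeff n f := by
  simp [D]

lemma coeff_D_odd (f : ℤ⟦X⟧) (n : ℕ) : coeff (2 * n + 1) (D f) = 0 := by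
  unfold D
  rw [coeff_expand_of_not_dvd]
  omega

lemma coeff_XD_even (f : ℤ⟦X⟧) (n : ℕ) : coeff (2 * n) (X * D f) = 0 := by
  rcases n with _ | n
  · simp
  · have : 2 * (n + 1) = (2 * n + 1) + 1 := by ring
    rw [this, coeff_succ_X_mul, coeff_D_odd]

lemma coeff_XD_odd (f : ℤ⟦X⟧) (n : ℕ) : coeff (2 * n + 1) (X * D f) = coeff n f := by
  rw [coeff_succ_X_mul, coeff_D_even]

lemma D_X : D (X : ℤ⟦X⟧) = X ^ 2 := by
  simp [D]

/-- the series `1/(1-x)` -/
def geo : ℤ⟦X⟧ := PowerSeries.mk fun _ => 1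

lemma geo_mul : (1 - X) * geo = (1 : ℤ⟦X⟧) := by
  have := PowerSeries.mk_one_mul_one_sub_eq_one ℤ
  rw [mul_comm]
  exact this

lemma Dgeo_mul : (1 - X ^ 2) * D geo = (1 : ℤ⟦X⟧) := by
  have h := congrArg D geo_mul
  rw [map_mul, map_sub, map_one, D_X] at h
  exact h

lemma geo_eq : geo = (1 + X) * D geo := by
  have h1 := geo_mul
  have h2 := Dgeo_mul
  calc geo = geo * ((1 - X ^ 2) * D geo) := by rw [h2, mul_one]
    _ = ((1 - X) * geo) * ((1 + X) * D geo) := by ring
    _ = (1 + X) * D geo := by rw [h1, one_mul]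

/-- the series `2x/(1-x)` -/
def z : ℤ⟦X⟧ := 2 * X * geo

lemma one_sub_mul_z : (1 - X) * z = 2 * X := by
  unfold z
  calc (1 - X) * (2 * X * geo) = 2 * X * ((1 - X) * geo) := by ring
    _ = 2 * X := by rw [geo_mul, mul_one]

lemma D_z : D z = 2 * X ^ 2 * D geo := by
  unfold z
  rw [map_mul, map_mul, D_X, map_ofNat]

lemma two_add_Dz : 2 + D z = 2 * D geo := by
  rw [D_z]
  linear_combination (-2 : ℤ⟦X⟧) * Dgeo_mul

/-- `w = x (2 + z(x^2))` -/
def w : ℤ⟦X⟧ := X * (2 + D z)

lemma X_mul_w : X * w = D z := by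
  unfold w
  rw [two_add_Dz, D_z]
  ring

lemma w_sq : w * w = D z * (2 + D z) := by
  have h := X_mul_w
  have : w * w = (X * w) * (2 + D z) := by
    conv_lhs => rw [show w * w = w * (X * (2 + D z)) from rfl]
    ring
  rw [this, h]

lemma z_eq : z = D z + w := by
  have h : z = 2 * X * ((1 + X) * D geo) := by
    conv_lhs => rw [z, geo_eq]
  unfold w
  rw [two_add_Dz, D_z, h]
  ring

lemma split_aeval (g : Polynomial ℤ) :
    ∃ a b : Polynomial ℤ, Polynomial.aeval z g = D (Polynomial.aeval z a) + D (Polynomial.aeval z b) * w := by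
  induction g using Polynomial.induction_on' with
  | add p q hp hq =>
    obtain ⟨a, b, h⟩ := hp
    obtain ⟨a', b', h'⟩ := hq
    refine ⟨a + a', b + b', ?_⟩
    simp only [map_add, h, h']
    ring
  | monomial n c =>
    induction n with
    | zero =>
      refine ⟨Polynomial.C c, 0, ?_⟩
      simp
    | succ n ih =>
      obtain ⟨a, b, h⟩ := ih
      refine ⟨Polynomial.X * a + Polynomial.X * (2 + Polynomial.X) * b, a + Polynomial.X * b, ?_⟩
      have h1 : Polynomial.aeval z (Polynomial.monomial (n + 1) c)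
          = z * Polynomial.aeval z (Polynomial.monomial n c) := by
        rw [← Polynomial.C_mul_X_pow_eq_monomial, ← Polynomial.C_mul_X_pow_eq_monomial]
        simp only [map_mul, map_pow, Polynomial.aeval_X]
        ring
      rw [h1, h]
      simp only [map_add, map_mul, Polynomial.aeval_X, map_ofNat]
      have hz : z = D z + w := z_eq
      have hw := w_sq
      calc z * (D (Polynomial.aeval z a) + D (Polynomial.aeval z b) * w)
          = (D z + w) * (D (Polynomial.aeval z a) + D (Polynomial.aeval z b) * w) := by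
            rw [← hz]
        _ = D z * D (Polynomial.aeval z a) + D (Polynomial.aeval z b) * (w * w)
            + (D (Polynomial.aeval z a) + D z * D (Polynomial.aeval z b)) * w := by ring
        _ = _ := by rw [hw]; ring

lemma sec_poly (g : Polynomial ℤ) :
    ∃ P Q R : Polynomial ℤ, (1 - X) * Polynomial.aeval z g
      = D (Polynomial.aeval z P) + X * D (Polynomial.aeval z Q) ∧
      P = Polynomial.C (g.coeff 0) + 2 * (Polynomial.X * R) := by
  obtain ⟨a, b, h⟩ := split_aeval g.divX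
  refine ⟨Polynomial.C (g.coeff 0) + 2 * (Polynomial.X * b), 2 * a - Polynomial.C (g.coeff 0), b, ?_, rfl⟩
  have hg : Polynomial.aeval z g = Polynomial.aeval z g.divX * z + (g.coeff 0 : ℤ⟦X⟧) := by
    conv_lhs => rw [← Polynomial.divX_mul_X_add g]
    simp
  have hXw := X_mul_w
  have hz := one_sub_mul_z
  rw [hg]
  have h1 : (1 - X) * (Polynomial.aeval z g.divX * z + (g.coeff 0 : ℤ⟦X⟧))
      = 2 * X * Polynomial.aeval z g.divX + (1 - X) * (g.coeff 0 : ℤ⟦X⟧) := by
    linear_combination (Polynomial.aeval z g.divX) * hz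
  rw [h1, h]
  simp only [map_add, map_sub, map_mul, map_ofNat, Polynomial.aeval_X, eq_intCast, map_intCast]
  linear_combination (2 * D (Polynomial.aeval z b)) * hXw

section E

variable {N : ℕ} {E : ℤ⟦X⟧} (hE : E = (1 - X) * (1 + z) ^ N * D E)

include hE

lemma step (p : Polynomial ℤ) :
    ∃ P Q R : Polynomial ℤ,
      (∀ n, coeff (2 * n) (Polynomial.aeval z p * E) = coeff n (Polynomial.aeval z P * E)) ∧
      (∀ n, coeff (2 * n + 1) (Polynomial.aeval z p * E) = coeff n (Polynomial.aeval z Q * E)) ∧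
      P = Polynomial.C (p.coeff 0) + 2 * (Polynomial.X * R) := by
  obtain ⟨P, Q, R, h, hP⟩ := sec_poly (p * (1 + Polynomial.X) ^ N)
  have hc : (p * (1 + Polynomial.X) ^ N).coeff 0 = p.coeff 0 := by
    rw [Polynomial.mul_coeff_zero]
    have : ((1 + Polynomial.X : Polynomial ℤ) ^ N).coeff 0 = 1 := by
      rw [Polynomial.coeff_zero_eq_eval_zero]
      simp
    rw [this, mul_one]
  rw [hc] at hP
  have key : Polynomial.aeval z p * E
      = D (Polynomial.aeval z P * E) + X * D (Polynomial.aeval z Q * E) := by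
    have h2 : Polynomial.aeval z (p * (1 + Polynomial.X) ^ N)
        = Polynomial.aeval z p * (1 + z) ^ N := by simp
    rw [h2] at h
    calc Polynomial.aeval z p * E = Polynomial.aeval z p * ((1 - X) * (1 + z) ^ N * D E) := by
          rw [← hE]
      _ = ((1 - X) * (Polynomial.aeval z p * (1 + z) ^ N)) * D E := by ring
      _ = _ := by rw [h, map_mul, map_mul]; ring
  refine ⟨P, Q, R, ?_, ?_, hP⟩
  · intro n
    rw [key, map_add, coeff_D_even, coeff_XD_even, add_zero]
  · intro n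
    rw [key, map_add, coeff_D_odd, coeff_XD_odd, zero_add]

lemma phi (L : ℕ) : ∀ p : Polynomial ℤ, p.coeff 0 = 0 →
    (2 : ℤ) ^ L ∣ coeff (2 ^ L) (Polynomial.aeval z p * E) := by
  induction L with
  | zero => intro p _; simp
  | succ L ih =>
    intro p hp
    obtain ⟨P, Q, R, h0, -, hP⟩ := step hE p
    rw [show (2 : ℕ) ^ (L + 1) = 2 * 2 ^ L by ring, h0]
    rw [hp] at hP
    have hP' : P = 2 * (Polynomial.X * R) := by simpa using hP
    have h1 : Polynomial.aeval z P * E = 2 * (Polynomial.aeval z (Polynomial.X * R) * E) := by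
      rw [hP', map_mul]
      simp only [map_ofNat]
      ring
    have h2 : coeff (2 ^ L) (Polynomial.aeval z P * E)
        = 2 * coeff (2 ^ L) (Polynomial.aeval z (Polynomial.X * R) * E) := by
      rw [h1, show (2 : ℤ⟦X⟧) = PowerSeries.C (2 : ℤ) from by simp, coeff_C_mul]
    rw [h2, pow_succ, mul_comm ((2 : ℤ) ^ L) 2]
    exact mul_dvd_mul_left _ (ih _ (by simp))

lemma phi' (L : ℕ) (p : Polynomial ℤ) :
    (2 : ℤ) ^ L ∣ coeff (2 ^ L) (Polynomial.aeval z p * E) - p.coeff 0 * coeff (2 ^ L) E := by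
  have h := phi hE L (p - Polynomial.C (p.coeff 0)) (by simp)
  have h2 : Polynomial.aeval z (p - Polynomial.C (p.coeff 0)) * E
      = Polynomial.aeval z p * E - PowerSeries.C (p.coeff 0) * E := by
    rw [map_sub, sub_mul]
    simp
  rw [h2, map_sub, coeff_C_mul] at h
  exact h

lemma secs (l : ℕ) : ∀ n, n < 2 ^ l → ∃ P : Polynomial ℤ, ∀ M,
    coeff (2 ^ l * M + n) E = coeff M (Polynomial.aeval z P * E) := by
  induction l with
  | zero =>
    intro n hn
    have : n = 0 := by simpa using hn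
    subst this
    exact ⟨1, fun M => by simp⟩
  | succ l ih =>
    intro n hn
    rw [pow_succ] at hn
    rcases lt_or_ge n (2 ^ l) with h | h
    · obtain ⟨P, hP⟩ := ih n h
      obtain ⟨P0, Q0, R0, h0, -, -⟩ := step hE P
      refine ⟨P0, fun M => ?_⟩
      rw [show 2 ^ (l + 1) * M + n = 2 ^ l * (2 * M) + n by ring, hP, h0]
    · obtain ⟨P, hP⟩ := ih (n - 2 ^ l) (by omega)
      obtain ⟨P0, Q0, R0, -, h1, -⟩ := step hE P
      refine ⟨Q0, fun M => ?_⟩
      have : 2 ^ (l + 1) * M + n = 2 ^ l * (2 * M + 1) + (n - 2 ^ l) := by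
        have h3 : 2 ^ l * (2 * M + 1) = 2 ^ (l + 1) * M + 2 ^ l := by ring
        rw [h3]; omega
      rw [this, hP, h1]

/-- **Far-field multiplicativity.** -/
theorem far_mul (hE0 : coeff 0 E = 1) (l L n : ℕ) (hn : n < 2 ^ l) :
    (2 : ℤ) ^ L ∣ coeff (2 ^ (l + L) + n) E - coeff n E * coeff (2 ^ L) E := by
  obtain ⟨P, hP⟩ := secs hE l n hn
  have h0 : coeff n E = P.coeff 0 := by
    have := hP 0
    rw [mul_zero, zero_add] at this
    rw [this, coeff_zero_eq_constantCoeff, map_mul, ← coeff_zero_eq_constantCoeff, hE0, mul_one]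
    have hz : constantCoeff z = 0 := by unfold z; simp
    have h3 : (constantCoeff (Polynomial.aeval z P) : ℤ) = P.eval 0 := by
      have := Polynomial.hom_eval₂ P (algebraMap ℤ ℤ⟦X⟧) (constantCoeff (R := ℤ)) z
      rw [Polynomial.aeval_def, this, hz]
      simp [Polynomial.eval₂_eq_eval_map]
    rw [coeff_zero_eq_constantCoeff, h3, Polynomial.coeff_zero_eq_eval_zero]
  have h1 := hP (2 ^ L)
  rw [← pow_add] at h1
  rw [h1, h0]
  exact phi' hE L P

end E

end

end Pool.Agent.V11286.CBP
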