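import Mathlib
import Pool.Agent.V11286.CBP.Core

/-!
# Stabilisation of `E(2^L)` modulo `2^13` for `N = 1024`
-/

namespace Pool.Agent.V11286.CBP

open PowerSeries

noncomputable section

lemma pow_two_pow_expand {A : Type*} [CommRing A] (s : A) (k : ℕ) :
    ∃ r : A, (1 + 8 * s) ^ (2 ^ k) = 1 + 2 ^ (3 + k) * s + 2 ^ (5 + k) * r := by
  induction k with
  | zero => exact ⟨0, by norm_num⟩
  | succ k ih =>
    obtain ⟨r, hr⟩ := ih
    refine ⟨r + 2 ^ k * (s + 4 * r) ^ 2, ?_⟩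
    rw [pow_succ 2 k, pow_mul, hr]
    ring

lemma pow_expand {A : Type*} [CommRing A] (t : A) :
    ∃ r : A, (1 + 4 * t) ^ 512 = 1 + 2 ^ 11 * (t + 2 * t ^ 2) + 2 ^ 13 * r := by
  obtain ⟨r, hr⟩ := pow_two_pow_expand (t + 2 * t ^ 2) 8
  refine ⟨r, ?_⟩
  have h : (1 + 4 * t) ^ 512 = (1 + 8 * (t + 2 * t ^ 2)) ^ (2 ^ 8) := by
    rw [show (512 : ℕ) = 2 * 2 ^ 8 by norm_num, pow_mul]
    congr 1
    ring
  rw [h, hr]

/-- `t = x/(1-x)^2` -/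
def t : ℤ⟦X⟧ := X * geo ^ 2

lemma one_add_z_sq : (1 + z) ^ 2 = 1 + 4 * t := by
  have h := geo_mul
  unfold z t
  linear_combination (-4 * X * geo) * h

lemma exists_psi : ∃ r : ℤ⟦X⟧, (1 + z) ^ 1024 = 1 + 2 ^ 11 * (t + 2 * t ^ 2 + 4 * r) := by
  obtain ⟨r, hr⟩ := pow_expand t
  refine ⟨r, ?_⟩
  rw [show (1024 : ℕ) = 2 * 512 by norm_num, pow_mul, one_add_z_sq, hr]
  ring

/-- the polynomial `(t + 2 t^2) (1-x)(1-x^2)(1-x^4)(1-x^8)` -/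
def Rp : Polynomial ℤ :=
  Polynomial.X * (1 + Polynomial.X) * (1 - Polynomial.X ^ 4) * (1 - Polynomial.X ^ 8)
  + 2 * Polynomial.X ^ 2 * (1 + Polynomial.X) *
    (1 + Polynomial.X + Polynomial.X ^ 2 + Polynomial.X ^ 3) *
    (1 + Polynomial.X + Polynomial.X ^ 2 + Polynomial.X ^ 3 + Polynomial.X ^ 4
      + Polynomial.X ^ 5 + Polynomial.X ^ 6 + Polynomial.X ^ 7)

lemma Rp_coeff_zero : Rp.coeff 0 = 0 := by
  rw [Polynomial.coeff_zero_eq_eval_zero]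
  simp [Rp]

lemma Rp_natDegree : Rp.natDegree < 16 := by
  have : Rp.natDegree ≤ 14 := by
    unfold Rp
    compute_degree
  omega

lemma Rp_eq : (t + 2 * t ^ 2) * ((1 - X) * (1 - X ^ 2) * (1 - X ^ 4) * (1 - X ^ 8))
    = (Rp : ℤ⟦X⟧) := by
  have h := geo_mul
  have h2 : (1 - X) ^ 2 * geo ^ 2 = (1 : ℤ⟦X⟧) := by rw [← mul_pow, h, one_pow]
  have h4 : (1 - X) ^ 4 * geo ^ 4 = (1 : ℤ⟦X⟧) := by rw [← mul_pow, h, one_pow]
  have e1 : t * ((1 - X) * (1 - X ^ 2) * (1 - X ^ 4) * (1 - X ^ 8))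
      = X * (1 + X) * (1 - X ^ 4) * (1 - X ^ 8) := by
    unfold t
    linear_combination (X * (1 + X) * (1 - X ^ 4) * (1 - X ^ 8)) * h2
  have e2 : t ^ 2 * ((1 - X) * (1 - X ^ 2) * (1 - X ^ 4) * (1 - X ^ 8))
      = X ^ 2 * (1 + X) * (1 + X + X ^ 2 + X ^ 3) *
        (1 + X + X ^ 2 + X ^ 3 + X ^ 4 + X ^ 5 + X ^ 6 + X ^ 7) := by
    unfold t
    linear_combination (X ^ 2 * (1 + X) * (1 + X + X ^ 2 + X ^ 3) *
        (1 + X + X ^ 2 + X ^ 3 + X ^ 4 + X ^ 5 + X ^ 6 + X ^ 7)) * h4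
  have e3 : (Rp : ℤ⟦X⟧) = X * (1 + X) * (1 - X ^ 4) * (1 - X ^ 8)
      + 2 * (X ^ 2 * (1 + X) * (1 + X + X ^ 2 + X ^ 3) *
        (1 + X + X ^ 2 + X ^ 3 + X ^ 4 + X ^ 5 + X ^ 6 + X ^ 7)) := by
    have hc : ((2 : Polynomial ℤ) : ℤ⟦X⟧) = 2 :=
      map_ofNat (Polynomial.coeToPowerSeries.ringHom (R := ℤ)) 2
    unfold Rp
    push_cast
    rw [hc]
    ring
  rw [e3, ← e1, ← e2]
  ring

lemma coeff_D4 (f : ℤ⟦X⟧) (j : ℕ) (hj : ¬ 16 ∣ j) : coeff j (D (D (D (D f)))) = 0 := by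
  rcases Nat.even_or_odd' j with ⟨a, rfl | rfl⟩
  · rw [coeff_D_even]
    rcases Nat.even_or_odd' a with ⟨b, rfl | rfl⟩
    · rw [coeff_D_even]
      rcases Nat.even_or_odd' b with ⟨c, rfl | rfl⟩
      · rw [coeff_D_even]
        rcases Nat.even_or_odd' c with ⟨d, rfl | rfl⟩
        · exact absurd ⟨d, by ring⟩ hj
        · rw [coeff_D_odd]
      · rw [coeff_D_odd]
    · rw [coeff_D_odd]
  · rw [coeff_D_odd]

lemma coeff_Rp_mul (f : ℤ⟦X⟧) (M : ℕ) :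
    coeff (16 * M) ((Rp : ℤ⟦X⟧) * D (D (D (D f)))) = 0 := by
  rw [coeff_mul]
  apply Finset.sum_eq_zero
  rintro ⟨i, j⟩ hij
  have hij : i + j = 16 * M := by simpa using hij
  show coeff i (Rp : ℤ⟦X⟧) * coeff j (D (D (D (D f)))) = 0
  rw [Polynomial.coeff_coe]
  by_cases hj : 16 ∣ j
  · have hi : 16 ∣ i := by omega
    rcases Nat.eq_zero_or_pos i with h0 | h0
    · rw [h0, Rp_coeff_zero, zero_mul]
    · have : 16 ≤ i := Nat.le_of_dvd h0 hi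
      rw [Polynomial.coeff_eq_zero_of_natDegree_lt (lt_of_lt_of_le Rp_natDegree this), zero_mul]
  · rw [coeff_D4 f j hj, mul_zero]

section E

variable {E : ℤ⟦X⟧} (hE : E = (1 - X) * (1 + z) ^ 1024 * D E)

include hE

lemma exists_level_one : ∃ r : ℤ⟦X⟧, E = (1 - X) * D E + 2 ^ 11 * r := by
  obtain ⟨r, hr⟩ := exists_psi
  refine ⟨(1 - X) * (t + 2 * t ^ 2 + 4 * r) * D E, ?_⟩
  conv_lhs => rw [hE, hr]
  ring

lemma exists_level_four : ∃ r : ℤ⟦X⟧, (1 - X) * D E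
    = (1 - X) * (1 - X ^ 2) * (1 - X ^ 4) * (1 - X ^ 8) * D (D (D (D E))) + 2 ^ 11 * r := by
  obtain ⟨r, hr⟩ := exists_level_one hE
  have h1 : D E = (1 - X ^ 2) * D (D E) + 2 ^ 11 * D r := by
    conv_lhs => rw [hr]
    simp only [map_add, map_mul, map_sub, map_one, D_X, map_pow, map_ofNat]
  have h2 : D (D E) = (1 - X ^ 4) * D (D (D E)) + 2 ^ 11 * D (D r) := by
    conv_lhs => rw [h1]
    simp only [map_add, map_mul, map_sub, map_one, D_X, map_pow, map_ofNat]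
    ring
  have h3 : D (D (D E)) = (1 - X ^ 8) * D (D (D (D E))) + 2 ^ 11 * D (D (D r)) := by
    conv_lhs => rw [h2]
    simp only [map_add, map_mul, map_sub, map_one, D_X, map_pow, map_ofNat]
    ring
  refine ⟨(1 - X) * D r + (1 - X) * (1 - X ^ 2) * D (D r)
    + (1 - X) * (1 - X ^ 2) * (1 - X ^ 4) * D (D (D r)), ?_⟩
  linear_combination (1 - X) * h1 + (1 - X) * (1 - X ^ 2) * h2
    + (1 - X) * (1 - X ^ 2) * (1 - X ^ 4) * h3

omit hE in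
lemma coeff_two_pow_mul (k : ℕ) (f : ℤ⟦X⟧) (n : ℕ) : coeff n (2 ^ k * f) = 2 ^ k * coeff n f := by
  rw [show (2 ^ k : ℤ⟦X⟧) = PowerSeries.C ((2 : ℤ) ^ k) from by simp, coeff_C_mul]

theorem stab (M : ℕ) : (2 : ℤ) ^ 13 ∣ coeff (16 * M) E - coeff (8 * M) E := by
  obtain ⟨r, hr⟩ := exists_psi
  obtain ⟨s, hs⟩ := exists_level_four hE
  have key : E = D E - X * D E + 2 ^ 11 * ((Rp : ℤ⟦X⟧) * D (D (D (D E))))
      + 2 ^ 13 * (2 ^ 9 * ((t + 2 * t ^ 2) * s) + r * ((1 - X) * D E)) := by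
    rw [← Rp_eq]
    have : E = (1 - X) * D E + 2 ^ 11 * ((t + 2 * t ^ 2 + 4 * r) * ((1 - X) * D E)) := by
      conv_lhs => rw [hE, hr]
      ring
    conv_lhs => rw [this]
    linear_combination (2 ^ 11 * (t + 2 * t ^ 2)) * hs
  have h := congrArg (coeff (16 * M)) key
  rw [map_add, map_add, map_sub, coeff_two_pow_mul, coeff_two_pow_mul, coeff_Rp_mul,
    show 16 * M = 2 * (8 * M) by ring, coeff_D_even, coeff_XD_even] at h
  refine ⟨coeff (2 * (8 * M)) (2 ^ 9 * ((t + 2 * t ^ 2) * s) + r * ((1 - X) * D E)), ?_⟩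
  rw [show 16 * M = 2 * (8 * M) by ring]
  linear_combination h

theorem coeff_pow_mod (L : ℕ) : (2 : ℤ) ^ 13 ∣ coeff (2 ^ (L + 3)) E - coeff 8 E := by
  induction L with
  | zero => simp
  | succ L ih =>
    have h := stab hE (2 ^ L)
    have e1 : 16 * 2 ^ L = 2 ^ (L + 1 + 3) := by ring
    have e2 : 8 * 2 ^ L = 2 ^ (L + 3) := by ring
    rw [e1, e2] at h
    have := dvd_add h ih
    simpa using this

end E

end

end Pool.Agent.V11286.CBP
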