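import Mathlib
import Pool.Agent.V11286.CBP.Stab

/-!
# Numerical values for `m = 1023`
-/

namespace Pool.Agent.V11286.CBP

open PowerSeries

noncomputable section

/-- the first coefficients of `((1+x)/(1-x))^1023` -/
def Kl : List ℕ :=
  [1,
   2046,
   2093058,
   1427466238,
   730150027266,
   298778247636990,
   101883869210898434,
   29779412899533768702,
   7616161261957669519362,
   1731430488650632063666174,
   354256770906928886361714690,
   65893176013634032471331022846,
   11235081724300358310433907490818,
   1768284771758052544423458412881918,
   258431818856976222156437222831878146,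
   35251632605560413681009870858226010110,
   4508028647277537753653524118565628936194,
   542585610989348567657666205567538246682622,
   61677904919031311668424639609837794598645762,
   6642221969459204347328789103538040836790675454,
   679554817590103732912236707467590431618824880130,
   66214064714608188686715978593888440279429272741886,
   6158525795565461642167233497147504573652030387613698,
   547901490134171360514633946552794174562518355990661118,
   46714247349250710157044530574331421927313870876059172866,
   3823598072433601556904197845434112141171964709384194115582,
   300930876851366569325759917711229899806311358780811022331906,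
   22807413481100253365904718391974526955823790340121257649776638,
   1666849720897473354194411556708584790321801397543442651357986818,
   117620356176559316880091223186977510111248720748726446159827068926,
   8023264017647516386352802872138127535391463103034184174574806888450,
   529645457110836733763463139415065525329166442635795286713506125121534,
   33871728224040668211613630229043381520298008922685255691908461756416002,
   2100544695622958881809338024422564412782270618652598266652510043742603262,
   126435245369051269810725801003996946375328683001433587698622841772752105474]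

/-- the first coefficients of `F` -/
def Cl : List ℕ :=
  [1,
   2046,
   2095104,
   1431652354,
   734434519038,
   301703130142722,
   103382142772525056,
   30393706813584865278,
   7826148395871740098560,
   1792987184082868316903426,
   370053941009334565562861568,
   69498502556076008514990872574,
   11975994126660667417036494202882,
   1906772590454961178515360681961470,
   282171979585383516456660686870218752,
   39010097073069881288222280595085887490,
   5060831610245772717227706243186831484926,
   618510808557119015381050307587534333843458,
   71459120286749687661175594004236246489565184,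
   7828788454766664510125543336669729980781041662,
   815570943529979260100200581765790386638121662466,
   80992610980309810912443315641930604847862347302910,
   7684763735251086457781493484777839997701364584400896,
   698094836702505508087985761558644099593082351823464450,
   60830020455170898625084904184427095576710075279574251520,
   5093248539761871607334101426635844929660012101800088299518,
   410430550740886086303944499407510666180263202864649966139392,
   31878246938029580708176590458825123735513986578506680822589442,
   2389760540291683980667499883693022241801672727801737405866563582,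
   173130255285929105874598855495169861661935926261398725396921571330,
   12135733165800140159034754200455996219068689467628699799511736776704,
   823977750458511832935971246931859815144719741170935610699342570158078,
   54246617086529346964311454447968468904438768055860066599608888780912640,
   3466259004327298420522840332564855050267861022446189177191341576819218434,
   215168488863669165214515247286661365967788112762740331096828664086544779264]

set_option maxRecDepth 100000 in
lemma Kl_rec : ∀ n < 33, (n + 2) * Kl.getD (n + 2) 0 = 2046 * Kl.getD (n + 1) 0 + n * Kl.getD n 0 := by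
  decide

set_option maxRecDepth 100000 in
lemma Cl_rec : ∀ n < 35, Cl.getD n 0
    = ((List.range (n / 2 + 1)).map fun j => Kl.getD (n - 2 * j) 0 * Cl.getD j 0).sum := by
  decide

set_option maxRecDepth 100000 in
lemma Cl_34 : Cl.getD 34 0 % 2 ^ 24 = 2 ^ 11 := by
  decide

set_option maxRecDepth 100000 in
lemma Cl_8 : ((List.range 9).map fun j => Cl.getD j 0).sum % 2 ^ 13 = 2 ^ 12 - 1 := by
  decide

lemma coeff_mul_D (A f : ℤ⟦X⟧) (n : ℕ) :
    coeff n (A * D f) = ∑ j ∈ Finset.range (n / 2 + 1), coeff (n - 2 * j) A * coeff j f := by
  rw [mul_comm, coeff_mul, Finset.Nat.sum_antidiagonal_eq_sum_range_succ_mk]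
  simp only
  have h1 : ∑ j ∈ Finset.range (n / 2 + 1), coeff (n - 2 * j) A * coeff j f
      = ∑ k ∈ (Finset.range (n / 2 + 1)).image (fun j => 2 * j),
        coeff k (D f) * coeff (n - k) A := by
    rw [Finset.sum_image (by intro a _ b _ h; simpa using h)]
    apply Finset.sum_congr rfl
    intro j _
    rw [coeff_D_even, mul_comm]
  rw [h1]
  symm
  apply Finset.sum_subset
  · intro k hk
    simp only [Finset.mem_image, Finset.mem_range] at hk ⊢
    obtain ⟨j, hj, rfl⟩ := hk
    omega
  · intro k hk hk'
    simp only [Finset.mem_image, Finset.mem_range, not_exists, not_and] at hk hk'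
    rcases Nat.even_or_odd' k with ⟨a, rfl | rfl⟩
    · exact absurd rfl (hk' a (by omega))
    · rw [coeff_D_odd, zero_mul]

lemma h_mul : (1 - X) * (1 + z) = (1 + X : ℤ⟦X⟧) := by
  have := one_sub_mul_z
  linear_combination this

lemma K_deriv_gen (h : ℤ⟦X⟧) (hh : (1 - X) * h = 1 + X) (m : ℕ) :
    (1 - X ^ 2) * derivative ℤ (h ^ (m + 1)) = PowerSeries.C (2 * ((m : ℤ) + 1)) * h ^ (m + 1) := by
  have hd := congrArg (derivative ℤ) hh
  rw [Derivation.leibniz] at hd
  simp only [map_add, map_sub, Derivation.map_one_eq_zero, derivative_X, smul_eq_mul, zero_sub,
    zero_add] at hd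
  have h3 : (1 - X ^ 2) * derivative ℤ h = 2 * h := by
    linear_combination (1 + X) * hd - hh
  rw [Derivation.leibniz_pow]
  simp only [smul_eq_mul, nsmul_eq_mul, Nat.add_sub_cancel]
  have : (1 - X ^ 2) * (((m + 1 : ℕ) : ℤ⟦X⟧) * (h ^ m * derivative ℤ h))
      = ((m + 1 : ℕ) : ℤ⟦X⟧) * h ^ m * ((1 - X ^ 2) * derivative ℤ h) := by
    ring
  rw [this, h3]
  simp
  ring

/-- the series `((1+x)/(1-x))^1023`, kept opaque -/
def K : ℤ⟦X⟧ := (1 + z) ^ (1022 + 1)

lemma K_deriv : (1 - X ^ 2) * derivative ℤ K = PowerSeries.C (2046 : ℤ) * K := by
  have h := K_deriv_gen (1 + z) h_mul 1022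
  have h2 : (2 * (((1022 : ℕ) : ℤ) + 1)) = 2046 := by norm_num
  rw [h2] at h
  exact h

lemma K_zero : coeff 0 K = (1 : ℤ) := by
  unfold K
  rw [coeff_zero_eq_constantCoeff, map_pow, map_add]
  have hz : constantCoeff z = (0 : ℤ) := by simp [z]
  rw [hz]
  simp

lemma K_rec (n : ℕ) : ((n : ℤ) + 2) * coeff (n + 2) K
    = 2046 * coeff (n + 1) K + n * coeff n K := by
  have h := congrArg (coeff (n + 1)) K_deriv
  have h2 : (1 - X ^ 2) * derivative ℤ K
      = derivative ℤ K - X * (X * derivative ℤ K) := by ring
  rw [h2, map_sub, coeff_succ_X_mul, coeff_derivative, coeff_C_mul] at h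
  rcases n with _ | n
  · rw [coeff_zero_X_mul] at h
    push_cast at h ⊢
    linear_combination h
  · rw [coeff_succ_X_mul, coeff_derivative] at h
    push_cast at h ⊢
    linear_combination h

lemma K_one : coeff 1 K = (2046 : ℤ) := by
  have h := congrArg (coeff 0) K_deriv
  have h2 : (1 - X ^ 2) * derivative ℤ K
      = derivative ℤ K - X * (X * derivative ℤ K) := by ring
  rw [h2, map_sub, coeff_zero_X_mul, coeff_derivative, coeff_C_mul, K_zero] at h
  simpa using h

lemma K_val : ∀ n, n < 35 → coeff n K = ((Kl.getD n 0 : ℕ) : ℤ) := by
  intro n
  induction n using Nat.strong_induction_on with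
  | _ n ih =>
    intro hn
    match n, ih, hn with
    | 0, _, _ => rw [K_zero]; rfl
    | 1, _, _ => rw [K_one]; rfl
    | (n + 2), ih, hn =>
      have h := K_rec n
      have h1 := Kl_rec n (by omega)
      rw [ih (n + 1) (by omega) (by omega), ih n (by omega) (by omega)] at h
      have h2 : ((n : ℤ) + 2) * ((Kl.getD (n + 2) 0 : ℕ) : ℤ)
          = 2046 * ((Kl.getD (n + 1) 0 : ℕ) : ℤ) + n * ((Kl.getD n 0 : ℕ) : ℤ) := by
        exact_mod_cast h1
      rw [← h2] at h
      exact mul_left_cancel₀ (by positivity) h

lemma F_val {F : ℤ⟦X⟧} (hF : F = K * D F) (hF0 : coeff 0 F = 1) :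
    ∀ n, n < 35 → coeff n F = ((Cl.getD n 0 : ℕ) : ℤ) := by
  intro n
  induction n using Nat.strong_induction_on with
  | _ n ih =>
    intro hn
    rcases Nat.eq_zero_or_pos n with h0 | h0
    · subst h0
      rw [hF0]; rfl
    · rw [hF, coeff_mul_D, Cl_rec n hn]
      have e : ∀ g : ℕ → ℕ, ∀ k : ℕ, ((List.range k).map g).sum = ∑ j ∈ Finset.range k, g j := by
        intro g k
        induction k with
        | zero => simp
        | succ k ihk => rw [List.range_succ, List.map_append, List.sum_append, ihk,
            Finset.sum_range_succ]; simp
      rw [e]
      push_cast
      apply Finset.sum_congr rfl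
      intro j hj
      rw [Finset.mem_range] at hj
      rw [K_val (n - 2 * j) (by omega), ih j (by omega) (by omega)]

end

end Pool.Agent.V11286.CBP
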