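import Mathlib
import Pool.Agent.V11286.CBP.Num

/-!
# Values of `c_1023(n)` converging `2`-adically to `2^11`
-/

namespace Pool.Agent.V11286.CBP

open PowerSeries

noncomputable section

lemma pow_two_pow_form (Y : ℤ) (hY : ∃ b : ℤ, Y = 1 + 2 ^ 13 * (1 + 2 * b)) (k : ℕ) :
    ∃ b : ℤ, Y ^ (2 ^ k) = 1 + 2 ^ (13 + k) * (1 + 2 * b) := by
  induction k with
  | zero => obtain ⟨b, hb⟩ := hY; exact ⟨b, by simpa using hb⟩
  | succ k ih =>
    obtain ⟨b, hb⟩ := ih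
    refine ⟨b + 2 ^ (11 + k) * (1 + 2 * b) ^ 2, ?_⟩
    rw [pow_succ 2 k, pow_mul, hb]
    ring

lemma hit (w0 Y : ℤ) (hw : (2 : ℤ) ^ 13 ∣ w0 - 1) (hY : ∃ b : ℤ, Y = 1 + 2 ^ 13 * (1 + 2 * b))
    (C : ℕ) : ∃ r : ℕ, (2 : ℤ) ^ (13 + C) ∣ w0 * Y ^ r - 1 := by
  induction C with
  | zero => exact ⟨0, by simpa using hw⟩
  | succ C ih =>
    obtain ⟨r, a, ha⟩ := ih
    rcases Int.even_or_odd' a with ⟨d, rfl | rfl⟩
    · exact ⟨r, d, by rw [ha]; ring⟩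
    · obtain ⟨b, hb⟩ := pow_two_pow_form Y hY C
      refine ⟨r + 2 ^ C, d + 1 + b + 2 ^ (12 + C) * (2 * d + 1) * (1 + 2 * b), ?_⟩
      have h1 : w0 * Y ^ r = 1 + 2 ^ (13 + C) * (2 * d + 1) := by linear_combination ha
      rw [pow_add, ← mul_assoc, h1, hb]
      ring

section

variable {F : ℤ⟦X⟧} (hF : F = K * D F) (hF0 : coeff 0 F = 1)

include hF in
lemma E_eq : geo * F = (1 - X) * (1 + z) ^ 1024 * D (geo * F) := by
  have h := h_mul
  have hg := geo_eq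
  have hK : (1 + z) ^ 1024 = (1 + z) * K := by
    unfold K
    rw [← pow_succ']
  rw [hK, map_mul]
  calc geo * F = geo * (K * D F) := by rw [← hF]
    _ = ((1 + X) * D geo) * (K * D F) := by rw [← hg]
    _ = ((1 - X) * (1 + z) * D geo) * (K * D F) := by rw [h]
    _ = _ := by ring

lemma F_eq_one_sub (F : ℤ⟦X⟧) : F = (1 - X) * (geo * F) := by
  rw [← mul_assoc, geo_mul, one_mul]

lemma coeff_F_succ (F : ℤ⟦X⟧) (n : ℕ) :
    coeff (n + 1) F = coeff (n + 1) (geo * F) - coeff n (geo * F) := by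
  have h : F = geo * F - X * (geo * F) := by
    conv_lhs => rw [F_eq_one_sub F]
    ring
  conv_lhs => rw [h]
  rw [map_sub, coeff_succ_X_mul]

lemma coeff_E (F : ℤ⟦X⟧) (n : ℕ) :
    coeff n (geo * F) = ∑ i ∈ Finset.range (n + 1), coeff i F := by
  induction n with
  | zero =>
    rw [coeff_zero_eq_constantCoeff, map_mul]
    simp [geo]
  | succ n ih =>
    rw [Finset.sum_range_succ, ← ih, coeff_F_succ F n]
    ring

include hF hF0

lemma E_eight : ∃ q : ℤ, coeff 8 (geo * F) = 2 ^ 12 - 1 + 2 ^ 13 * q := by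
  have h1 : coeff 8 (geo * F)
      = ((((List.range 9).map fun j => Cl.getD j 0).sum : ℕ) : ℤ) := by
    rw [coeff_E]
    have : ∀ i ∈ Finset.range 9, coeff i F = ((Cl.getD i 0 : ℕ) : ℤ) := by
      intro i hi
      rw [Finset.mem_range] at hi
      exact F_val hF hF0 i (by omega)
    rw [Finset.sum_congr rfl this]
    rfl
  have h2 := Cl_8
  have h3 := Nat.div_add_mod (((List.range 9).map fun j => Cl.getD j 0).sum) (2 ^ 13)
  rw [h2] at h3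
  refine ⟨((((List.range 9).map fun j => Cl.getD j 0).sum / 2 ^ 13 : ℕ) : ℤ), ?_⟩
  rw [h1]
  have h4 : ((2 ^ 13 * (((List.range 9).map fun j => Cl.getD j 0).sum / 2 ^ 13) + (2 ^ 12 - 1) : ℕ) : ℤ)
      = ((((List.range 9).map fun j => Cl.getD j 0).sum : ℕ) : ℤ) := congrArg (fun x : ℕ => (x : ℤ)) h3
  rw [← h4]
  push_cast
  ring

lemma F_34 : ∃ q : ℤ, coeff 34 F = 2 ^ 11 + 2 ^ 24 * q := by
  have h1 := F_val hF hF0 34 (by norm_num)
  have h2 := Cl_34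
  have h3 := Nat.div_add_mod (Cl.getD 34 0) (2 ^ 24)
  rw [h2] at h3
  refine ⟨((Cl.getD 34 0 / 2 ^ 24 : ℕ) : ℤ), ?_⟩
  rw [h1]
  have h4 : ((2 ^ 24 * (Cl.getD 34 0 / 2 ^ 24) + 2 ^ 11 : ℕ) : ℤ)
      = ((Cl.getD 34 0 : ℕ) : ℤ) := congrArg (fun x : ℕ => (x : ℤ)) h3
  rw [← h4]
  push_cast
  ring

omit hF in
lemma coeff_zero_E : coeff 0 (geo * F) = 1 := by
  rw [coeff_E]
  simpa using hF0

lemma chain (L r : ℕ) : ∃ n l : ℕ, 1 ≤ n ∧ n < 2 ^ l ∧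
    (2 : ℤ) ^ L ∣ coeff n F - (coeff (2 ^ L) (geo * F)) ^ r * coeff 34 F := by
  induction r with
  | zero => exact ⟨34, 6, by norm_num, by norm_num, by simp⟩
  | succ r ih =>
    obtain ⟨n, l, h1, h2, h3⟩ := ih
    obtain ⟨k, rfl⟩ : ∃ k, n = k + 1 := ⟨n - 1, by omega⟩
    refine ⟨2 ^ (l + L) + (k + 1), l + L + 1, le_add_left h1, ?_, ?_⟩
    · have h5 : 2 ^ l ≤ 2 ^ (l + L) := Nat.pow_le_pow_right (by norm_num) (by omega)
      have h6 : 2 ^ (l + L + 1) = 2 * 2 ^ (l + L) := by ring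
      omega
    · have e1 := far_mul (E_eq hF) (coeff_zero_E hF0) l L (k + 1) h2
      have e2 := far_mul (E_eq hF) (coeff_zero_E hF0) l L k (by omega)
      have e3 := dvd_sub e1 e2
      have e4 := dvd_mul_of_dvd_right h3 (coeff (2 ^ L) (geo * F))
      have e5 := dvd_add e3 e4
      have e6 : coeff (2 ^ (l + L) + (k + 1)) F
          = coeff (2 ^ (l + L) + (k + 1)) (geo * F) - coeff (2 ^ (l + L) + k) (geo * F) := by
        rw [← add_assoc, coeff_F_succ]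
      have e7 := coeff_F_succ F k
      have e8 : coeff (2 ^ (l + L) + (k + 1)) F
          - (coeff (2 ^ L) (geo * F)) ^ (r + 1) * coeff 34 F
          = coeff (2 ^ (l + L) + (k + 1)) (geo * F) - coeff (k + 1) (geo * F) *
            coeff (2 ^ L) (geo * F) - (coeff (2 ^ (l + L) + k) (geo * F) -
            coeff k (geo * F) * coeff (2 ^ L) (geo * F)) + coeff (2 ^ L) (geo * F) *
            (coeff (k + 1) F - (coeff (2 ^ L) (geo * F)) ^ r * coeff 34 F) := by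
        rw [e6, e7]
        ring
      rw [e8]
      exact e5

theorem exists_close (C : ℕ) :
    ∃ n, 1 ≤ n ∧ (2 : ℤ) ^ (24 + C) ∣ coeff n F - 2 ^ 11 := by
  obtain ⟨q0, hq0⟩ := E_eight hF hF0
  obtain ⟨w, hw⟩ := F_34 hF hF0
  obtain ⟨q1, hq1⟩ := coeff_pow_mod (E_eq hF) (21 + C)
  rw [show 21 + C + 3 = 24 + C by ring] at hq1
  set Z := coeff (2 ^ (24 + C)) (geo * F) with hZ
  have hZ' : Z = 2 ^ 12 - 1 + 2 ^ 13 * (q0 + q1) := by
    linear_combination hq1 + hq0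
  obtain ⟨r, hr⟩ := hit (1 + 2 ^ 13 * w) (Z ^ 2) ⟨w, by ring⟩
    ⟨2 ^ 10 - 1 + (2 ^ 12 - 1) * (q0 + q1) + 2 ^ 12 * (q0 + q1) ^ 2, by rw [hZ']; ring⟩ C
  obtain ⟨n, l, hn, -, hd⟩ := chain hF hF0 (24 + C) (2 * r)
  refine ⟨n, hn, ?_⟩
  rw [← hZ, hw] at hd
  obtain ⟨a, ha⟩ := hr
  have h2 : (2 : ℤ) ^ (24 + C) ∣ Z ^ (2 * r) * (2 ^ 11 + 2 ^ 24 * w) - 2 ^ 11 := by
    refine ⟨a, ?_⟩
    rw [pow_mul]
    have : (2 : ℤ) ^ (24 + C) = 2 ^ 11 * 2 ^ (13 + C) := by rw [← pow_add]; congr 1; ring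
    rw [this]
    linear_combination (2 ^ 11) * ha
  have h5 := dvd_add hd h2
  rwa [sub_add_sub_cancel] at h5

end

end

end Pool.Agent.V11286.CBP
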